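import Pool.Agent.Helper87.PG.Stmts2
import Pool.Agent.Helper28.TC.GENP

/-!
Module GENPT of `MP_39dd1a_ag` (hand-in `TwoGroups`): general points of the vector space, for model
varieties of any dimension.
-/

set_option autoImplicit false

namespace Pool.Agent.Helper87.PG

open MvPolynomial Pool.Agent.Helper48.VMRT Pool.Agent.Helper87.VM Pool.Agent.Helper87.TC

theorem genpt_rel {w r : ℕ} {Z : Set (Fin w → ℂ)} (h : DimLE r Z) : Rel r Z := by
  intro e _
  obtain ⟨P, hP, hz⟩ := h fun i => LinearMap.proj (e i)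
  exact ⟨P, hP, fun z hzZ => hz z hzZ⟩

theorem genpt_comap {w : ℕ} (L : (Fin w → ℂ) →ₗ[ℂ] (Fin w → ℂ)) (S : Submodule ℂ (Fin w → ℂ)) :
    Module.finrank ℂ (S.comap L) ≤ Module.finrank ℂ (LinearMap.ker L) + Module.finrank ℂ S := by
  let f : S.comap L →ₗ[ℂ] S := L.restrict (fun x hx => hx)
  have h1 := LinearMap.finrank_range_add_finrank_ker f
  have h2 : Module.finrank ℂ (LinearMap.range f) ≤ Module.finrank ℂ S := Submodule.finrank_le _
  have h3 : Module.finrank ℂ (LinearMap.ker f) ≤ Module.finrank ℂ (LinearMap.ker L) := by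
    let g : LinearMap.ker f →ₗ[ℂ] LinearMap.ker L :=
      LinearMap.codRestrict (LinearMap.ker L)
        ((S.comap L).subtype.comp (LinearMap.ker f).subtype) (by
          intro x
          rw [LinearMap.mem_ker]
          have hx := x.2
          rw [LinearMap.mem_ker] at hx
          exact congrArg Subtype.val hx)
    refine LinearMap.finrank_le_finrank_of_injective (f := g) ?_
    intro x y hxy
    have h := congrArg Subtype.val hxy
    exact Subtype.ext (Subtype.ext h)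
  omega

/-- The vectors that `L` maps into a tangent space. -/
def genptT {w : ℕ} {ν : Type} (F : ν → MvPolynomial (Option (Fin w)) ℂ) (Z : Set (Fin w → ℂ))
    (L : (Fin w → ℂ) →ₗ[ℂ] (Fin w → ℂ)) : Set (Fin w → ℂ) :=
  {u | ∃ z : Fin w → ℂ, z ≠ 0 ∧ z ∈ Z ∧ L u ∈ TT F z}

theorem genpt_closed (hE : TC.ST_ELIM) {w a : ℕ} {ν : Type}
    (F : ν → MvPolynomial (Option (Fin w)) ℂ) (hF : ∀ j, HomE a (F j)) (ha : 1 ≤ a)
    {Z : Set (Fin w → ℂ)} (hZ : ZClosed Z) (hcone : ∀ a : ℂ, ∀ z ∈ Z, a • z ∈ Z)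
    (L : (Fin w → ℂ) →ₗ[ℂ] (Fin w → ℂ)) : ZClosed (genptT F Z L) := by
  let Φ : (Fin w ⊕ Fin w → ℂ) →ₗ[ℂ] (Fin w ⊕ Fin w → ℂ) :=
    { toFun := fun x => Sum.elim (fun i => x (Sum.inl i)) (L fun i => x (Sum.inr i))
      map_add' := by
        intro x y
        have h : (fun i => (x + y) (Sum.inr i)) =
            (fun i => x (Sum.inr i)) + (fun i => y (Sum.inr i) : Fin w → ℂ) := rfl
        funext o
        cases o with
        | inl i => rfl
        | inr i =>
          change L (fun i => (x + y) (Sum.inr i)) i = _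
          rw [h, map_add]
          rfl
      map_smul' := by
        intro c x
        have h : (fun i => (c • x) (Sum.inr i)) = c • (fun i => x (Sum.inr i) : Fin w → ℂ) := rfl
        funext o
        cases o with
        | inl i => rfl
        | inr i =>
          change L (fun i => (c • x) (Sum.inr i)) i = _
          rw [h, map_smul]
          rfl }
  have hmem : ∀ z u : Fin w → ℂ, Sum.elim z u ∈ {x | Φ x ∈ genp_W F Z} ↔
      z ∈ Z ∧ L u ∈ TT F z := fun z u => Iff.rfl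
  have h := hE (Fin w) (Fin w) {x | Φ x ∈ genp_W F Z}
    (genp_zclosed_lin (genp_W_closed F hZ) Φ) (by
      intro c z u hzu
      rw [hmem] at hzu ⊢
      refine ⟨hcone c z hzu.1, ?_⟩
      rw [genp_mem_TT]
      intro j
      have hj := (genp_mem_TT F z (L u)).1 hzu.2 j
      have he : ∀ i : Fin w, eval (ov 0 (c • z)) (pderiv (some i) (F j)) * L u i =
          c ^ (a - 1) * (eval (ov 0 z) (pderiv (some i) (F j)) * L u i) := by
        intro i
        rw [← genp_eval_B, ← genp_eval_B, genp_hom_B ha F hF j i c z]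
        ring
      simp only [he]
      rw [← Finset.mul_sum, hj, mul_zero])
  exact h

theorem genpt_cone {w : ℕ} {ν : Type} (F : ν → MvPolynomial (Option (Fin w)) ℂ)
    {Z : Set (Fin w → ℂ)} (L : (Fin w → ℂ) →ₗ[ℂ] (Fin w → ℂ)) :
    ∀ a : ℂ, ∀ u ∈ genptT F Z L, a • u ∈ genptT F Z L := by
  rintro a u ⟨z, hz0, hz, hzu⟩
  refine ⟨z, hz0, hz, ?_⟩
  rw [map_smul]
  exact Submodule.smul_mem _ a hzu

theorem genpt_proper (hT : ST_TANDG) {w a r : ℕ} {ν : Type} [Fintype ν]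
    (F : ν → MvPolynomial (Option (Fin w)) ℂ) (hF : ∀ j, HomE a (F j)) (ha : 1 ≤ a)
    {Z : Set (Fin w → ℂ)} (hcone : ∀ a : ℂ, ∀ z ∈ Z, a • z ∈ Z) (hrel : Rel r Z)
    (hdim : ∀ z ∈ Z, z ≠ 0 → Module.finrank ℂ (TT F z) ≤ r)
    (L : (Fin w → ℂ) →ₗ[ℂ] (Fin w → ℂ)) (hw : 1 ≤ w)
    (hL : Module.finrank ℂ (LinearMap.ker L) + 2 * r ≤ w) :
    ∃ u, u ∉ genptT F Z L := by
  classical
  have heval : ∀ (j : ν) (z u : Fin w → ℂ), ∑ i, eval z (∑ k, genp_B F j k *
      C (L (fun l => if i = l then 1 else 0) k)) * u i =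
      ∑ k, eval (ov 0 z) (pderiv (some k) (F j)) * L u k := by
    intro j z u
    have h1 : ∀ k, L u k = ∑ i, u i * L (fun l => if i = l then 1 else 0) k := by
      intro k
      conv_lhs => rw [LinearMap.pi_apply_eq_sum_univ L u]
      rw [Finset.sum_apply]
      rfl
    simp only [h1, map_sum, map_mul, eval_C, genp_eval_B, Finset.sum_mul, Finset.mul_sum]
    rw [Finset.sum_comm]
    refine Finset.sum_congr rfl fun k _ => Finset.sum_congr rfl fun i _ => ?_
    ring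
  obtain ⟨u, hu⟩ := hT w r (Module.finrank ℂ (LinearMap.ker L) + r) (a - 1) ν Z
    (fun j i => ∑ k, genp_B F j k * C (L (fun l => if i = l then 1 else 0) k)) hw
    (by omega) hcone hrel (by
      intro j i c z
      rw [map_sum, map_sum, Finset.mul_sum]
      refine Finset.sum_congr rfl fun k _ => ?_
      rw [map_mul, map_mul, genp_hom_B ha F hF j k c z, eval_C, eval_C]
      ring) (by
      intro z hz hz0
      refine le_trans ?_ ((genpt_comap L (TT F z)).trans (Nat.add_le_add_left (hdim z hz hz0) _))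
      apply Submodule.finrank_mono
      intro x hx
      rw [Submodule.mem_comap, genp_mem_TT]
      intro j
      rw [LinearMap.mem_ker, Matrix.mulVecLin_apply] at hx
      have hxj := congrFun hx j
      rw [← heval j z x]
      exact hxj)
  refine ⟨u, ?_⟩
  rintro ⟨z, hz0, hz, hzu⟩
  obtain ⟨j, hj⟩ := hu z hz hz0
  rw [heval] at hj
  exact hj ((genp_mem_TT F z (L u)).1 hzu j)

/-- Linear forms that vanish on a small subspace. -/
theorem genpt_forms {w r : ℕ} (K : Submodule ℂ (Fin w → ℂ)) (hr : 1 ≤ r)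
    (hK : Module.finrank ℂ K + 2 * r ≤ w) :
    ∃ Λ : (Fin w → ℂ) →ₗ[ℂ] (Fin (r + 1) → ℂ), Function.Surjective Λ ∧ ∀ x ∈ K, Λ x = 0 := by
  have h1 := K.finrank_quotient_add_finrank
  rw [Module.finrank_fin_fun] at h1
  have h2 : r + 1 ≤ Module.finrank ℂ ((Fin w → ℂ) ⧸ K) := by omega
  let e : ((Fin w → ℂ) ⧸ K) ≃ₗ[ℂ] (Fin (Module.finrank ℂ ((Fin w → ℂ) ⧸ K)) → ℂ) :=
    LinearEquiv.ofFinrankEq _ _ (by rw [Module.finrank_fin_fun])
  refine ⟨(LinearMap.funLeft ℂ ℂ (Fin.castLE h2)).comp (e.toLinearMap.comp K.mkQ), ?_, ?_⟩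
  · rw [LinearMap.coe_comp, LinearMap.coe_comp]
    exact (LinearMap.funLeft_surjective_of_injective ℂ ℂ _ (Fin.castLE_injective h2)).comp
      (e.surjective.comp K.mkQ_surjective)
  · intro x hx
    rw [LinearMap.comp_apply, LinearMap.comp_apply, Submodule.mkQ_apply,
      (Submodule.Quotient.mk_eq_zero K).2 hx, map_zero, map_zero]

/-- The vectors that are sums of an element of a small subspace and an element of `Z`. -/
theorem genpt_aff {w r : ℕ} {Z : Set (Fin w → ℂ)} (hcone : ∀ a : ℂ, ∀ z ∈ Z, a • z ∈ Z)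
    (hdim : DimLE r Z) (K : Submodule ℂ (Fin w → ℂ)) (hr : 1 ≤ r)
    (hK : Module.finrank ℂ K + 2 * r ≤ w) :
    ∃ B : Set (Fin w → ℂ), ZClosed B ∧ (∀ a : ℂ, ∀ u ∈ B, a • u ∈ B) ∧ (∃ u, u ∉ B) ∧
      ∀ u, u ∉ B → ∀ z ∈ Z, u + z ∉ K := by
  obtain ⟨Λ, hΛ, hΛK⟩ := genpt_forms K hr hK
  obtain ⟨P, hP0, hP⟩ := hdim fun i => (LinearMap.proj i).comp Λ
  have hP' : ∀ z ∈ Z, eval (Λ z) P = 0 := hP
  have hcl : ZClosed {y : Fin (r + 1) → ℂ | eval y P = 0} := by
    apply zclosed_of_eqs {P}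
    intro x
    simp
  have hmem : ∀ (a : ℂ) (u : Fin w → ℂ), (a • Λ) u = Λ (a • u) := by
    intro a u
    rw [LinearMap.smul_apply, map_smul]
  refine ⟨⋂ a : ℂ, {u | (a • Λ) u ∈ {y : Fin (r + 1) → ℂ | eval y P = 0}},
    zclosed_iInter fun a => genp_zclosed_lin hcl (a • Λ), ?_, ?_, ?_⟩
  · intro a u hu
    rw [Set.mem_iInter] at hu ⊢
    intro b
    have h1 : eval ((((b * a) • Λ) : (Fin w → ℂ) →ₗ[ℂ] (Fin (r + 1) → ℂ)) u) P = 0 := hu (b * a)
    change eval ((b • Λ) (a • u)) P = 0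
    rw [hmem, smul_smul, ← hmem]
    exact h1
  · obtain ⟨y, hy⟩ : ∃ y, eval y P ≠ 0 := by
      by_contra hcon
      push Not at hcon
      apply hP0
      apply MvPolynomial.funext
      intro x
      rw [hcon x, map_zero]
    obtain ⟨u, hu⟩ := hΛ y
    refine ⟨u, fun hh => hy ?_⟩
    rw [Set.mem_iInter] at hh
    have h1 : eval (((1 : ℂ) • Λ) u) P = 0 := hh 1
    rwa [one_smul, hu] at h1
  · intro u hu z hz hK'
    apply hu
    rw [Set.mem_iInter]
    intro a
    change eval ((a • Λ) u) P = 0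
    have h1 := hΛK _ hK'
    rw [map_add] at h1
    have h2 : (a • Λ) u = Λ ((-a) • z) := by
      rw [LinearMap.smul_apply, map_smul, eq_neg_of_add_eq_zero_left h1, smul_neg, neg_smul]
    rw [h2]
    exact hP' _ (hcone _ z hz)

theorem st_GENPT (hE : TC.ST_ELIM) (hD : TC.ST_DIMT) (hT : ST_TANDG) : ST_GENPT := by
  classical
  intro D m r htd hr hdim hfix
  have hgood := htd.good
  have hfd := hgood.fd
  have ha1 : 1 ≤ D.a := le_trans (by norm_num) hfd.two_le
  have hrel : Rel r D.Z := genpt_rel hdim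
  have hTTd := hD D.G D.ν D.w D.Z D.ρ D.a D.F D.ρν r hfd hrel
  have hZcone : ∀ a : ℂ, ∀ z ∈ D.Z, a • z ∈ D.Z := by
    intro a z hz
    obtain ⟨i, hi⟩ := Set.mem_iUnion.1 hz
    exact Set.mem_iUnion.2 ⟨i, hgood.Zcone i a z hi⟩
  obtain ⟨i0⟩ := hgood.ine
  obtain ⟨z0, hz0, hz0ne⟩ := hgood.Zne i0
  have hz0Z : z0 ∈ D.Z := Set.mem_iUnion.2 ⟨i0, hz0⟩
  -- an element different from the identity
  obtain ⟨h₀, hh₀⟩ : ∃ h : D.G, h ≠ 1 := by
    have h1 : 1 < Nat.card D.G := by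
      rw [htd.card]
      exact Nat.one_lt_two_pow (by have := htd.pos; omega)
    have : Nontrivial D.G := (Finite.one_lt_card_iff_nontrivial).1 h1
    exact exists_ne 1
  have hw2 : 2 * r ≤ D.w := by
    have := hfix h₀ hh₀
    omega
  have hw : 1 ≤ D.w := by omega
  -- the linear maps
  let L : D.G → ((Fin D.w → ℂ) →ₗ[ℂ] (Fin D.w → ℂ)) := fun h =>
    if h = 1 then LinearMap.id else D.ρ h - LinearMap.id
  have hL : ∀ h, Module.finrank ℂ (LinearMap.ker (L h)) + 2 * r ≤ D.w := by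
    intro h
    by_cases h1 : h = 1
    · have h2 : L h = LinearMap.id := if_pos h1
      rw [h2, LinearMap.ker_id, finrank_bot]
      omega
    · have h2 : L h = D.ρ h - LinearMap.id := if_neg h1
      rw [h2]
      exact hfix h h1
  have hB : ∀ h : D.G, ∃ B : Set (Fin D.w → ℂ), ZClosed B ∧ (∀ a : ℂ, ∀ u ∈ B, a • u ∈ B) ∧
      (∃ u, u ∉ B) ∧ ∀ u, u ∉ B → ∀ z ∈ D.Z, u + z ∉ LinearMap.ker (L h) := fun h =>
    genpt_aff hZcone hdim _ hr (hL h)
  choose B hBcl hBcone hBne hB using hB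
  let S : D.G × Bool → Set (Fin D.w → ℂ) := fun p =>
    if p.2 then B p.1 else genptT D.F D.Z (L p.1)
  have hScl : ∀ p, ZClosed (S p) := by
    rintro ⟨h, b⟩
    cases b
    · exact genpt_closed hE D.F hfd.hom ha1 hgood.ZZcl hZcone (L h)
    · exact hBcl h
  have hScone : ∀ p, ∀ a : ℂ, ∀ u ∈ S p, a • u ∈ S p := by
    rintro ⟨h, b⟩
    cases b
    · exact genpt_cone D.F (L h)
    · exact hBcone h
  have hSne : ∀ p, ∃ u, u ∉ S p := by
    rintro ⟨h, b⟩
    cases b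
    · exact genpt_proper hT D.F hfd.hom ha1 hZcone hrel hTTd (L h) hw (hL h)
    · exact hBne h
  let A' : D.G × D.G × Bool → Set (Fin D.w → ℂ) := fun p => {u | D.ρ p.1 u ∈ S p.2}
  have hA'closed : ∀ p, ZClosed (A' p) := fun p => genp_zclosed_lin (hScl p.2) (D.ρ p.1)
  refine ⟨⋃ p, A' p, zclosed_iUnion hA'closed, ?_, ?_, ?_, ?_⟩
  · intro a u hu
    obtain ⟨p, hp⟩ := Set.mem_iUnion.1 hu
    refine Set.mem_iUnion.2 ⟨p, ?_⟩
    change D.ρ p.1 (a • u) ∈ S p.2
    rw [map_smul]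
    exact hScone p.2 a _ hp
  · intro g u hu
    obtain ⟨p, hp⟩ := Set.mem_iUnion.1 hu
    refine Set.mem_iUnion.2 ⟨(p.1 * g⁻¹, p.2), ?_⟩
    change D.ρ (p.1 * g⁻¹) (D.ρ g u) ∈ S p.2
    rw [map_mul]
    change D.ρ p.1 (D.ρ g⁻¹ (D.ρ g u)) ∈ S p.2
    rw [genp_inv_rho]
    exact hp
  · obtain ⟨u, hu⟩ := genp_proper hA'closed (by
      intro p
      obtain ⟨u, hu⟩ := hSne p.2
      refine ⟨D.ρ p.1⁻¹ u, ?_⟩
      change D.ρ p.1 (D.ρ p.1⁻¹ u) ∉ S p.2
      rw [genp_rho_inv]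
      exact hu)
    refine ⟨u, fun hh => ?_⟩
    obtain ⟨p, hp⟩ := Set.mem_iUnion.1 hh
    exact hu p hp
  · intro u hu
    have hu' : ∀ p, u ∉ S p := by
      intro p hp
      apply hu
      refine Set.mem_iUnion.2 ⟨(1, p), ?_⟩
      change D.ρ 1 u ∈ S p
      rw [map_one]
      exact hp
    have huB : ∀ h : D.G, h ≠ 1 → ∀ z ∈ D.Z, D.ρ h (u + z) ≠ u + z := by
      intro h h1 z hz hcon
      refine hB h u (hu' (h, true)) z hz ?_
      simp only [L, if_neg h1]
      rw [LinearMap.mem_ker]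
      change D.ρ h (u + z) - (u + z) = 0
      rw [hcon, sub_self]
    have huT : ∀ h : D.G, h ≠ 1 → ∀ z ∈ D.Z, z ≠ 0 → D.ρ h u - u ∉ TT D.F z := by
      intro h h1 z hz hz0 hcon
      apply hu' (h, false)
      refine ⟨z, hz0, hz, ?_⟩
      simp only [L, if_neg h1]
      exact hcon
    have hu1 : ∀ z ∈ D.Z, z ≠ 0 → u ∉ TT D.F z := by
      intro z hz hz0 hcon
      apply hu' (1, false)
      refine ⟨z, hz0, hz, ?_⟩
      simp only [L, if_true]
      exact hcon
    refine ⟨⟨hu1, ?_, ?_⟩, ?_⟩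
    · intro τ hτ _ z hz
      exact huB τ hτ z hz
    · intro τ hτ _ z hz hz0 _
      exact huT τ hτ z hz hz0
    · intro h h1 hcon
      by_cases hx : D.ρ h u - u = 0
      · apply huT h h1 z0 hz0Z hz0ne
        rw [hx]
        exact Submodule.zero_mem _
      · exact huT h h1 _ hcon hx (genp_self hfd hcon)

end Pool.Agent.Helper87.PG
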